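import Pool.Agent.H73.NK.Targets

/-!
Targets for MP_0cd084_nt, second theorem: the order of `log (N k)` for almost all `k`, where `N k` is
the number of multisets of `k` positive integers whose product equals their sum. Board nok_modules.

Upper bound: Rankin's method for multisets. Lower bound: second moment for moduli `b * Q - 1` without
small prime factors. Paper: `/team-store/ST2_MP_0cd084_nt.md`.
-/

set_option autoImplicit false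

open Finset

namespace Pool.Agent.H26.NO

open Pool.Agent.H73.NK (SPM fm)

/-! ## Definitions -/

/-- `√(log x)` -/
noncomputable def sx (x : ℝ) : ℝ := √(Real.log x)

/-- `log log x` -/
noncomputable def el (x : ℝ) : ℝ := Real.log (Real.log x)

/-- the order of `log (N k)` -/
noncomputable def gx (x : ℝ) : ℝ := √(Real.log x) * Real.log (Real.log (Real.log x)) /
  Real.log (Real.log x)

/-- the bound between small and big parts -/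
noncomputable def Bx (x : ℝ) : ℝ := Real.exp (sx x * el x)

/-- the bound between small and large primes -/
noncomputable def wn (x : ℝ) : ℕ := ⌊Real.log x⌋₊

/-- the number of prime factors which is allowed -/
noncomputable def n1 (x : ℝ) : ℕ := ⌈4 * sx x⌉₊

/-- the size of the cofactor `b` -/
noncomputable def Yn (x : ℝ) : ℕ := ⌊x ^ (1 / 10 : ℝ)⌋₊

/-- the primes up to `N` -/
def PN (N : ℕ) : Finset ℕ := (Icc 1 N).filter Nat.Prime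

/-- solutions of size `k` without the ones -/
def Sl (k : ℕ) : Set (Multiset ℕ) :=
  {m : Multiset ℕ | (∀ a ∈ m, 2 ≤ a) ∧ m.prod = k + (m.map (fun a => a - 1)).sum}

/-- the number of prime factors of `n` larger than `w`, with multiplicity -/
def Om (w n : ℕ) : ℕ := n.primeFactorsList.countP (fun p => w < p)

open Classical in
/-- the product of the parts which are at most `B` -/
noncomputable def Tp (B : ℝ) (m : Multiset ℕ) : ℕ := (m.filter (fun a : ℕ => (a : ℝ) ≤ B)).prod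

/-- the product of a tuple -/
def Qf {r : ℕ} (a : Fin r → ℕ) : ℕ := ∏ i, a i

/-- the sum of a tuple -/
def Sg {r : ℕ} (a : Fin r → ℕ) : ℕ := ∑ i, a i

/-- the products of a prime of `L` and an element of `M` -/
def PA (L M : Finset ℕ) : Finset ℕ := (L ×ˢ M).image (fun y => y.1 * y.2)

/-- the sum of the reciprocals of the products -/
noncomputable def mq {r : ℕ} (A : Fin r → Finset ℕ) : ℝ :=
  ∑ a ∈ Fintype.piFinset A, (1 : ℝ) / Qf a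

/-- the coincidences -/
noncomputable def co {r : ℕ} (A : Fin r → Finset ℕ) : ℝ :=
  ∑ a ∈ Fintype.piFinset A, ∑ _a' ∈ (Fintype.piFinset A).filter
    (fun a' => a' ≠ a ∧ Qf a' = Qf a ∧ Sg a' = Sg a), (1 : ℝ) / Qf a

/-- the primes in the window `(exp u, exp v]` -/
noncomputable def LW (u v : ℝ) : Finset ℕ :=
  (Ioc ⌊Real.exp u⌋₊ ⌊Real.exp v⌋₊).filter Nat.Prime

/-- the numbers up to `M` with at most `w` prime factors -/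
def MM (M w : ℕ) : Finset ℕ := (Icc 1 M).filter (fun m => ArithmeticFunction.cardFactors m ≤ w)

open Classical in
/-- the cofactors `b` for which `b * Q - 1` has no prime factor up to `z` -/
noncomputable def Bs (Y : ℕ) (z : ℝ) (Q : ℕ) : Finset ℕ :=
  (Ioc Y (2 * Y)).filter (fun b => ∀ p : ℕ, p.Prime → (p : ℝ) ≤ z → ¬ p ∣ b * Q - 1)

open Classical in
/-- the index set of the second moment -/
noncomputable def IX {r : ℕ} (A : Fin r → Finset ℕ) (Y : ℕ) (z : ℝ) :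
    Finset ((Fin r → ℕ) × ℕ) :=
  (Fintype.piFinset A ×ˢ Ioc Y (2 * Y)).filter (fun y => y.2 ∈ Bs Y z (Qf y.1))

/-- the modulus -/
def qb {r : ℕ} (y : (Fin r → ℕ) × ℕ) : ℕ := y.2 * Qf y.1 - 1

/-- the shift -/
def eb {r : ℕ} (y : (Fin r → ℕ) × ℕ) : ℕ := y.2 + Sg y.1 - (r + 2)

/-- the pairs of moduli with a common factor which does not contradict -/
noncomputable def Dl {ι : Type} (I : Finset ι) (q e : ι → ℕ) : ℝ :=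
  ∑ i ∈ I, ∑ j ∈ I.filter (fun j => 1 < (q i).gcd (q j) ∧
    (((q i).gcd (q j) : ℕ) : ℤ) ∣ (e i : ℤ) - (e j : ℤ)),
      (((q i).gcd (q j) : ℕ) : ℝ) / ((q i : ℝ) * (q j : ℝ))

/-- the solvable congruences for `k` -/
def Rk {ι : Type} (I : Finset ι) (q e : ι → ℕ) (k : ℕ) : ℕ :=
  (I.filter (fun i => q i ∣ k + e i)).card

/-! ## Part 0: asymptotics -/

/-- AS. The functions of `x` and their sizes. -/
def T_AS : Prop := ∀ K : ℝ, ∃ x₀ : ℝ, ∀ x : ℝ, x₀ ≤ x →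
  K ≤ x ∧ K ≤ Real.log (el x) ∧ K * Real.log (el x) ^ 2 ≤ el x ∧ K * el x ^ 4 ≤ sx x ∧
  0 < sx x ∧ sx x ^ 2 = Real.log x ∧ Real.log (sx x) = el x / 2 ∧ x = Real.exp (sx x ^ 2) ∧
  gx x * el x = sx x * Real.log (el x) ∧ K ≤ gx x ∧ K * gx x ≤ sx x

/-! ## Part I: the upper bound -/

/-- MER. Mertens, upper bound. -/
def T_MER : Prop := ∃ C : ℝ, 0 ≤ C ∧ ∀ N : ℕ, 3 ≤ N →
  ∑ p ∈ PN N, (1 : ℝ) / p ≤ Real.log (Real.log N) + C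

/-- SR. Removing the ones. -/
def T_SR : Prop := ∀ k : ℕ, 2 ≤ k → (Sl k).Finite ∧ (SPM k).ncard ≤ (Sl k).ncard ∧
  ∀ m ∈ Sl k, m.prod ≤ 2 * k

/-- MG. The generating function of the multisets. -/
def T_MG : Prop := ∀ (A : Finset ℕ) (v : ℕ → ℝ) (F : Finset (Multiset ℕ)),
  (∀ a ∈ A, 0 ≤ v a ∧ v a ≤ 1 / 2) → (∀ m ∈ F, ∀ a ∈ m, a ∈ A) →
    ∑ m ∈ F, (m.map v).prod ≤ Real.exp (2 * ∑ a ∈ A, v a)

/-- EP. Euler product for `u ^ Om w n`, upper bound. -/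
def T_EP : Prop := ∀ (N w : ℕ) (u : ℝ), 2 ≤ w → w ≤ N → 0 ≤ u → 2 * u ≤ w →
  ∑ n ∈ Icc 1 N, u ^ Om w n / (n : ℝ) ≤
    Real.exp (∑ p ∈ PN w, (1 : ℝ) / p + u * ∑ p ∈ (PN N).filter (fun p => w < p), (1 : ℝ) / p +
      1 + u ^ 2 / w)

/-- TL. A tail of the zeta function. -/
def T_TL : Prop := ∀ (B N : ℕ) (h : ℝ), 1 ≤ B → 0 < h →
  ∑ a ∈ Ioc B N, (a : ℝ) ^ (-(1 + h)) ≤ (B : ℝ) ^ (-h) / h

/-- WB. Multisets with big parts. -/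
def T_WB : Prop := ∃ x₀ : ℝ, ∀ x : ℝ, x₀ ≤ x → ∀ F : Finset (Multiset ℕ),
  (∀ m ∈ F, (∀ a ∈ m, Bx x < (a : ℝ)) ∧ (m.prod : ℝ) ≤ 2 * x) →
    ∑ m ∈ F, (1 : ℝ) / (m.prod : ℝ) ≤ Real.exp (5 * gx x)

/-- VA. The logarithmic mean of `z ^ Om w a` up to `B`. -/
def T_VA : Prop := ∃ x₀ : ℝ, ∀ x : ℝ, x₀ ≤ x →
  ∑ a ∈ Icc 1 ⌊Bx x⌋₊, (1 - 6 * Real.log (el x) / el x) ^ Om (wn x) a / (a : ℝ) ≤ gx x

/-- VB. Multisets with small parts and few large primes. -/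
def T_VB : Prop := ∃ x₀ : ℝ, ∀ x : ℝ, x₀ ≤ x → ∀ F : Finset (Multiset ℕ),
  (∀ m ∈ F, (∀ a ∈ m, 2 ≤ a ∧ (a : ℝ) ≤ Bx x) ∧ Om (wn x) m.prod ≤ n1 x) →
    ∑ m ∈ F, (1 : ℝ) / (m.prod : ℝ) ≤ Real.exp (60 * gx x)

/-- UB. Numbers with many large primes. -/
def T_UB : Prop := ∃ x₀ : ℝ, ∀ x : ℝ, x₀ ≤ x →
  ∑ T ∈ (Icc 1 ⌊2 * x⌋₊).filter (fun T => n1 x ≤ Om (wn x) T), (1 : ℝ) / (T : ℝ) ≤
    Real.exp (-(3 / 2) * (sx x * el x))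

open Classical in
/-- C1. The `k` which have a solution with many large primes in the small parts. -/
def T_C1 : Prop := ∀ (x B W U : ℝ) (w n : ℕ), 1 ≤ x → 1 ≤ B → 0 ≤ W → 0 ≤ U →
  (∀ F : Finset (Multiset ℕ), (∀ m ∈ F, (∀ a ∈ m, B < (a : ℝ)) ∧ (m.prod : ℝ) ≤ 2 * x) →
    ∑ m ∈ F, (1 : ℝ) / (m.prod : ℝ) ≤ W) →
  ∑ T ∈ (Icc 1 ⌊2 * x⌋₊).filter (fun T => n ≤ Om w T), (1 : ℝ) / (T : ℝ) ≤ U →
    (((Icc 2 ⌊x⌋₊).filter (fun k => ∃ m ∈ Sl k, n ≤ Om w (Tp B m))).card : ℝ) ≤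
      2 * x * W * U * (B * (Nat.log 2 ⌊2 * x⌋₊ : ℝ) + 1)

/-- C2. The number of solutions with few large primes in the small parts. -/
def T_C2 : Prop := ∀ (x B W V : ℝ) (w n : ℕ), 1 ≤ x → 1 ≤ B → 0 ≤ W → 0 ≤ V →
  (∀ F : Finset (Multiset ℕ), (∀ m ∈ F, (∀ a ∈ m, B < (a : ℝ)) ∧ (m.prod : ℝ) ≤ 2 * x) →
    ∑ m ∈ F, (1 : ℝ) / (m.prod : ℝ) ≤ W) →
  (∀ F : Finset (Multiset ℕ), (∀ m ∈ F, (∀ a ∈ m, 2 ≤ a ∧ (a : ℝ) ≤ B) ∧ Om w m.prod ≤ n) →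
    ∑ m ∈ F, (1 : ℝ) / (m.prod : ℝ) ≤ V) →
    ∑ k ∈ Icc 2 ⌊x⌋₊, (({m : Multiset ℕ | m ∈ Sl k ∧ Om w (Tp B m) ≤ n}.ncard : ℕ) : ℝ) ≤
      2 * x * W * V

/-- UP. The upper bound. -/
def T_UP : Prop := ∃ x₀ : ℝ, ∀ x : ℝ, x₀ ≤ x →
  (((Icc 2 ⌊x⌋₊).filter (fun k => Real.exp (68 * gx x) < ((SPM k).ncard : ℝ))).card : ℝ) ≤
    x * Real.exp (-gx x)

/-! ## Part II: the family of factorisations -/

/-- TF. The number of ordered factorisations. -/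
def T_TF : Prop := ∀ s n : ℕ, 1 ≤ n →
  (fm s n).card ≤ s ^ ArithmeticFunction.cardFactors n

/-- PS. The sum of the reciprocals over `PA L M`. -/
def T_PS : Prop := ∀ L M : Finset ℕ, (∀ p ∈ L, p.Prime) → (∀ p ∈ L, ∀ m ∈ M, 1 ≤ m ∧ m < p) →
  (∀ a ∈ PA L M, 2 ≤ a) ∧
  ∑ a ∈ PA L M, (1 : ℝ) / a = (∑ p ∈ L, (1 : ℝ) / p) * ∑ m ∈ M, (1 : ℝ) / m

/-- PD. The sets `PA L M` are disjoint. -/
def T_PD : Prop := ∀ L L' M : Finset ℕ, (∀ p ∈ L, p.Prime) → (∀ p ∈ L', p.Prime) →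
  (∀ p ∈ L, ∀ m ∈ M, 1 ≤ m ∧ m < p) → (∀ p ∈ L', ∀ m ∈ M, 1 ≤ m ∧ m < p) → Disjoint L L' →
    Disjoint (PA L M) (PA L' M)

/-- CJ. Few coincidences, for one index. -/
def T_CJ : Prop := ∀ (r w : ℕ) (L : Fin r → Finset ℕ) (M : Finset ℕ) (E θ : ℝ) (j : Fin r),
  1 ≤ r → 0 < E → 0 < θ → (∀ j, ∀ p ∈ L j, p.Prime ∧ E ≤ (p : ℝ)) →
  (∀ j, ∀ p ∈ L j, ∀ m ∈ M, 1 ≤ m ∧ m < p) →
  (∀ m ∈ M, ArithmeticFunction.cardFactors m ≤ w) → (∀ i j, i ≠ j → Disjoint (L i) (L j)) →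
  (∀ j, θ ≤ ∑ p ∈ L j, (1 : ℝ) / p) →
    ∑ a ∈ Fintype.piFinset (fun j => PA (L j) M),
      ∑ _a' ∈ (Fintype.piFinset (fun j => PA (L j) M)).filter
        (fun a' => a' j ≠ a j ∧ Qf a' = Qf a ∧ Sg a' = Sg a), (1 : ℝ) / Qf a ≤
      ((r : ℝ) * (r : ℝ) ^ (r * (w + 1)) / (E * θ)) * mq (fun j => PA (L j) M)

/-- CO. Few coincidences. -/
def T_CO : Prop := ∀ (r w : ℕ) (L : Fin r → Finset ℕ) (M : Finset ℕ) (E θ : ℝ),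
  1 ≤ r → 0 < E → 0 < θ → (∀ j, ∀ p ∈ L j, p.Prime ∧ E ≤ (p : ℝ)) →
  (∀ j, ∀ p ∈ L j, ∀ m ∈ M, 1 ≤ m ∧ m < p) →
  (∀ m ∈ M, ArithmeticFunction.cardFactors m ≤ w) → (∀ i j, i ≠ j → Disjoint (L i) (L j)) →
  (∀ j, θ ≤ ∑ p ∈ L j, (1 : ℝ) / p) →
    co (fun j => PA (L j) M) ≤
      ((r : ℝ) ^ 2 * (r : ℝ) ^ (r * (w + 1)) / (E * θ)) * mq (fun j => PA (L j) M)

/-- TH. Primes in a window, lower bound. -/
def T_TH : Prop := ∃ C : ℝ, 0 ≤ C ∧ ∀ u v : ℝ, 1 ≤ u → u ≤ v →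
  Real.log (v / u) - C / u ≤ ∑ p ∈ LW u v, (1 : ℝ) / p

/-- LA. Numbers with few prime factors, lower bound. -/
def T_LA : Prop := ∃ C : ℝ, 0 ≤ C ∧ ∀ M w : ℕ, 3 ≤ M → 1 ≤ w →
  Real.log M - (Real.log M + 1) * (Real.log (Real.log M) + C) / w ≤ ∑ m ∈ MM M w, (1 : ℝ) / m

/-- FA. The family. -/
def T_FA : Prop := ∃ x₀ : ℝ, ∀ x : ℝ, x₀ ≤ x → ∃ (r : ℕ) (A : Fin r → Finset ℕ), 1 ≤ r ∧
  (∀ i, ∀ a ∈ A i, 2 ≤ a) ∧ (∀ i j, i ≠ j → Disjoint (A i) (A j)) ∧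
  (∀ a ∈ Fintype.piFinset A, (Qf a : ℝ) ≤ x ^ (1 / 30 : ℝ) ∧ (Sg a : ℝ) ≤ x ^ (1 / 100 : ℝ)) ∧
  Real.exp (gx x / 40) ≤ mq A ∧ co A ≤ mq A

/-! ## Part III: the second moment -/

/-- SV. Cofactors without small prime factors. -/
def T_SV : Prop := ∃ c x₀ : ℝ, 0 < c ∧ ∀ x : ℝ, x₀ ≤ x → ∀ Q : ℕ, 1 ≤ Q →
  c * Yn x / sx x ≤ ((Bs (Yn x) (Real.exp (sx x)) Q).card : ℝ)

/-- SM. The second moment. -/
def T_SM : Prop := ∀ (ι : Type) (I : Finset ι) (q e : ι → ℕ) (u v : ℕ), u ≤ v →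
  (∀ i ∈ I, 1 ≤ q i) →
    ∑ k ∈ Ioc u v, ((Rk I q e k : ℝ) - ∑ i ∈ I, (1 : ℝ) / q i) ^ 2 ≤
      ((v : ℝ) - u) * Dl I q e + (I.card : ℝ) ^ 2 + 2 * (I.card : ℝ) * ∑ i ∈ I, (1 : ℝ) / q i

open Classical in
/-- RS. Divisors without small prime factors. -/
def T_RS : Prop := ∀ (n : ℕ) (z : ℝ), 1 ≤ n → 3 * Real.log n ≤ z →
  ∑ d ∈ n.divisors.filter (fun d => 1 < d ∧ ∀ p : ℕ, p.Prime → p ∣ d → z < (p : ℝ)),
    (1 : ℝ) / d ≤ 3 * Real.log n / z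

/-- DN. Two tuples with different product or sum. -/
def T_DN : Prop := ∀ (Y Q Q' S S' : ℕ) (z : ℝ), 1 ≤ Y → 1 ≤ Q → 1 ≤ Q' → 3 * Real.log Y ≤ z →
  0 < z → (Q' : ℤ) - Q + ((S : ℤ) - S') * (Q * Q') ≠ 0 →
  |(Q' : ℤ) - Q + ((S : ℤ) - S') * (Q * Q')| ≤ Y →
    ∑ b ∈ Bs Y z Q, ∑ b' ∈ (Bs Y z Q').filter (fun b' =>
      1 < (b * Q - 1).gcd (b' * Q' - 1) ∧
      (((b * Q - 1).gcd (b' * Q' - 1) : ℕ) : ℤ) ∣ ((b : ℤ) + S) - ((b' : ℤ) + S')),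
        (((b * Q - 1).gcd (b' * Q' - 1) : ℕ) : ℝ) /
          (((b * Q - 1 : ℕ) : ℝ) * ((b' * Q' - 1 : ℕ) : ℝ)) ≤
      12 * Real.log Y / (z * (Q * Q'))

/-- DZ. Two tuples with the same product and the same sum. -/
def T_DZ : Prop := ∀ (Y Q : ℕ) (z : ℝ), 1 ≤ Y → 1 ≤ Q →
    ∑ b ∈ Bs Y z Q, ∑ b' ∈ Bs Y z Q, (((b * Q - 1).gcd (b' * Q - 1) : ℕ) : ℝ) /
          (((b * Q - 1 : ℕ) : ℝ) * ((b' * Q - 1 : ℕ) : ℝ)) ≤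
      (3 + 2 * Real.log Y) / Q

/-- DD. The correlations of the index set. -/
def T_DD : Prop := ∀ (r : ℕ) (A : Fin r → Finset ℕ) (Y : ℕ) (z : ℝ), 1 ≤ r → 1 ≤ Y →
  3 * Real.log Y ≤ z → 0 < z → (∀ i, ∀ a ∈ A i, 2 ≤ a) → ∀ K K' : ℝ,
  (∀ a ∈ Fintype.piFinset A, (Qf a : ℝ) ≤ K ∧ (Sg a : ℝ) ≤ K') → K + K' * K ^ 2 ≤ Y →
    Dl (IX A Y z) qb eb ≤
      12 * Real.log Y / z * mq A ^ 2 + (3 + 2 * Real.log Y) * (mq A + co A)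

/-- NI. Solutions from congruences. -/
def T_NI : Prop := ∀ (r : ℕ) (A : Fin r → Finset ℕ) (Y k : ℕ) (z : ℝ), 1 ≤ r → 1 ≤ Y →
  (∀ i, ∀ a ∈ A i, 2 ≤ a ∧ a ≤ Y) → (∀ i j, i ≠ j → Disjoint (A i) (A j)) → r + 2 ≤ k →
  (∀ a ∈ Fintype.piFinset A, (2 * Y) ^ 2 * Qf a < k) →
    Rk (IX A Y z) qb eb k ≤ (SPM k).ncard

/-- MU. The mean value. -/
def T_MU : Prop := ∃ c x₀ : ℝ, 0 < c ∧ ∀ x : ℝ, x₀ ≤ x → ∀ (r : ℕ) (A : Fin r → Finset ℕ),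
  1 ≤ r → (∀ i, ∀ a ∈ A i, 2 ≤ a) →
    c / sx x * mq A ≤ ∑ y ∈ IX A (Yn x) (Real.exp (sx x)), (1 : ℝ) / qb y

/-- CH. Chebyshev's inequality. -/
def T_CH : Prop := ∀ (ι : Type) (I : Finset ι) (q e : ι → ℕ) (u v : ℕ), u ≤ v →
  (∀ i ∈ I, 1 ≤ q i) →
    (((Ioc u v).filter (fun k => (Rk I q e k : ℝ) < (∑ i ∈ I, (1 : ℝ) / q i) / 2)).card : ℝ) *
      (∑ i ∈ I, (1 : ℝ) / q i) ^ 2 ≤
        4 * (((v : ℝ) - u) * Dl I q e + (I.card : ℝ) ^ 2 +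
          2 * (I.card : ℝ) * ∑ i ∈ I, (1 : ℝ) / q i)

/-- LB. The lower bound, in all intervals of length `x`. -/
def T_LB : Prop := ∃ c x₀ : ℝ, 0 < c ∧ ∀ x : ℝ, x₀ ≤ x → ∀ u : ℕ,
  (((Ioc u (u + ⌊x⌋₊)).filter
    (fun k => ((SPM k).ncard : ℝ) < Real.exp (c * gx x))).card : ℝ) ≤
      x * Real.exp (-(c * gx x))

/-! ## Conclusion -/

/-- FI. The order of `log (N k)` for almost all `k`, and the lower bound for almost all `k` in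
every long interval. -/
def T_FI : Prop := ∃ c C x₀ : ℝ, 0 < c ∧ ∀ x : ℝ, x₀ ≤ x →
  (({k : ℕ | 2 ≤ k ∧ (k : ℝ) ≤ x ∧ ¬ (Real.exp (c * gx x) ≤ ((SPM k).ncard : ℝ) ∧
    ((SPM k).ncard : ℝ) ≤ Real.exp (C * gx x))}.ncard : ℕ) : ℝ) ≤ x * Real.exp (-(c * gx x)) ∧
  ∀ y : ℝ, 0 ≤ y → (({k : ℕ | y < (k : ℝ) ∧ (k : ℝ) ≤ y + x ∧
    ((SPM k).ncard : ℝ) < Real.exp (c * gx x)}.ncard : ℕ) : ℝ) ≤ x * Real.exp (-(c * gx x))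

end Pool.Agent.H26.NO
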